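import Mathlib
import Pool.Agent.H.MP_d359f0_an.A

namespace Pool.Agent.Results.MP_d359f0_an.PoorNotMeasure

open Pool.Agent.H.MP_d359f0_an

theorem result :
    ∃ F : Filter ℕ, F.NeBot ∧ F ≤ Filter.cofinite ∧ Poor F ∧ ¬ GeneratedByStat F := main

end Pool.Agent.Results.MP_d359f0_an.PoorNotMeasure
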